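import Mathlib

open Complex Finset
open scoped ComplexConjugate Real

namespace Pool.Agent.H.MP_fc26cf_an

/-- exponential on the circle -/
noncomputable def E (u : ℝ) : ℂ := exp (u * I)

lemma E_add (a b : ℝ) : E (a + b) = E a * E b := by
  simp only [E, ← exp_add]; congr 1; push_cast; ring

lemma E_zero : E 0 = 1 := by simp [E]

lemma norm_E (a : ℝ) : ‖E a‖ = 1 := norm_exp_ofReal_mul_I a

lemma conj_E (a : ℝ) : conj (E a) = E (-a) := by
  simp only [E, ← exp_conj]; congr 1; simp

lemma E_pow (a : ℝ) (k : ℕ) : E a ^ k = E (k * a) := by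
  simp only [E, ← exp_nat_mul]; congr 1; push_cast; ring

lemma orth {M : ℕ} (hM : 0 < M) {l l' : ℕ} (hl : l < M) (hl' : l' < M) :
    ∑ j ∈ range M, E (-(2 * π * j / M) * ((l : ℝ) - l')) = if l = l' then (M : ℂ) else 0 := by
  split_ifs with h
  · simp [h, E_zero]
  · have hprim := Complex.isPrimitiveRoot_exp M hM.ne'
    have hM' : (M : ℝ) ≠ 0 := by exact_mod_cast hM.ne'
    set w := E (-(2 * π / M) * ((l : ℝ) - l')) with hw
    have e1 : ∀ j : ℕ, E (-(2 * π * j / M) * ((l : ℝ) - l')) = w ^ j := by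
      intro j
      rw [hw, E_pow]
      congr 1
      ring
    have hz : exp (2 * π * I / M) = E (2 * π / M) := by
      simp only [E]; congr 1; push_cast; ring
    rw [hz] at hprim
    have hw1 : w ≠ 1 := by
      intro h1
      apply h
      refine hprim.pow_inj hl hl' ?_
      have : E (2 * π / M) ^ l' = E (2 * π / M) ^ l * w := by
        rw [hw, E_pow, E_pow, ← E_add]
        congr 1
        ring
      rw [this, h1, mul_one]
    have hwM : w ^ M = 1 := by
      have : E (2 * π / M) ^ (M * l') = E (2 * π / M) ^ (M * l) * w ^ M := by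
        rw [hw, E_pow, E_pow, E_pow, ← E_add]
        congr 1
        push_cast
        ring
      rw [pow_mul, pow_mul, hprim.pow_eq_one, one_pow, one_pow, one_mul] at this
      exact this.symm
    simp_rw [e1]
    have := mul_geom_sum w M
    rw [hwM, sub_self] at this
    exact (mul_eq_zero.1 this).resolve_left (sub_ne_zero.2 hw1)

/-- square of the normalised Dirichlet kernel -/
noncomputable def Fe (M : ℕ) (θ : ℝ) : ℂ :=
  ((M : ℂ) ^ 2)⁻¹ * ∑ l ∈ range M, ∑ l' ∈ range M, E (θ * ((l : ℝ) - l'))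

lemma Fe_eq (M : ℕ) (θ : ℝ) :
    Fe M θ = ((((M : ℝ) ^ 2)⁻¹ * normSq (∑ l ∈ range M, E (θ * l)) : ℝ) : ℂ) := by
  rw [Fe]
  push_cast
  congr 1
  rw [← mul_conj, map_sum, sum_mul_sum]
  refine sum_congr rfl fun l _ => sum_congr rfl fun l' _ => ?_
  rw [conj_E, ← E_add]
  congr 1
  ring

lemma Fe_sum {M : ℕ} (hM : 0 < M) (θ : ℝ) :
    ∑ j ∈ range M, ‖Fe M (θ - 2 * π * j / M)‖ = 1 := by
  have h1 : ∀ x, ((‖Fe M x‖ : ℝ) : ℂ) = Fe M x := by
    intro x
    rw [Fe_eq, norm_real, Real.norm_of_nonneg (mul_nonneg (by positivity) (normSq_nonneg _))]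
  have hM' : (M : ℂ) ≠ 0 := by exact_mod_cast hM.ne'
  apply ofReal_injective
  rw [ofReal_sum]
  simp_rw [h1, Fe]
  rw [← mul_sum, sum_comm]
  have : ∀ l ∈ range M, ∑ j ∈ range M, ∑ l' ∈ range M,
      E ((θ - 2 * π * j / M) * ((l : ℝ) - l')) = M := by
    intro l hl
    rw [sum_comm]
    have : ∀ l' ∈ range M, ∑ j ∈ range M, E ((θ - 2 * π * j / M) * ((l : ℝ) - l')) =
        if l = l' then (M : ℂ) else 0 := by
      intro l' hl'
      have e : ∀ j : ℕ, E ((θ - 2 * π * j / M) * ((l : ℝ) - l')) =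
          E (θ * ((l : ℝ) - l')) * E (-(2 * π * j / M) * ((l : ℝ) - l')) := by
        intro j
        rw [← E_add]
        congr 1
        ring
      simp_rw [e]
      rw [← mul_sum, orth hM (mem_range.1 hl) (mem_range.1 hl')]
      split_ifs with h
      · simp [h, E_zero]
      · simp
    rw [sum_congr rfl this, sum_ite_eq, if_pos hl]
  rw [sum_congr rfl this, sum_const, card_range, nsmul_eq_mul]
  push_cast
  field_simp

lemma lower (p : Polynomial ℂ) {M : ℕ} (hM : 0 < M) {r : ℝ} (hr : 0 < r) (J : Finset ℕ)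
    (hJ : J ⊆ range M) (u : ℕ → ℝ) {b : ℝ}
    (h : ∀ j ∈ J, ∃ a : ℝ, b + a ≤ ‖p.eval (E (u j))‖ ∧ ∀ s, |s| ≤ r →
      ‖p.eval (E (u j + s)) * E (-(2 * π * j / r) * s) - p.eval (E (u j))‖ ≤ a) :
    J.card * b ≤ ∑ k ∈ p.support, ‖p.coeff k‖ := by
  have hM' : (M : ℝ) ≠ 0 := by exact_mod_cast hM.ne'
  have hMp : (0 : ℝ) < M := by exact_mod_cast hM
  have key : ∀ j ∈ J, b ≤ ∑ k ∈ p.support, ‖p.coeff k‖ * ‖Fe M (k * (r / M) - 2 * π * j / M)‖ := by
    intro j hj
    obtain ⟨a, ha, hs⟩ := h j hj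
    set T := ((M : ℂ) ^ 2)⁻¹ * ∑ l ∈ range M, ∑ l' ∈ range M,
      p.eval (E (u j + r / M * ((l : ℝ) - l'))) * E (-(2 * π * j / r) * (r / M * ((l : ℝ) - l')))
      with hT
    have e1 : T = ∑ k ∈ p.support, p.coeff k * E (k * u j) * Fe M (k * (r / M) - 2 * π * j / M) := by
      simp only [hT, Fe, Polynomial.eval_eq_sum, Polynomial.sum, mul_sum, sum_mul]
      rw [sum_comm]
      conv_lhs => enter [2, l]; rw [sum_comm]
      rw [sum_comm]
      refine sum_congr rfl fun k _ => ?_
      rw [sum_comm]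
      refine sum_congr rfl fun l _ => sum_congr rfl fun l' _ => ?_
      have : E (u j + r / M * ((l : ℝ) - l')) ^ k * E (-(2 * π * j / r) * (r / M * ((l : ℝ) - l'))) =
          E (k * u j) * E ((k * (r / M) - 2 * π * j / M) * ((l : ℝ) - l')) := by
        rw [E_pow, ← E_add, ← E_add]
        congr 1
        field_simp
        ring
      rw [mul_assoc (p.coeff k), this]
      ring
    have e2 : ‖T - p.eval (E (u j))‖ ≤ a := by
      have : T - p.eval (E (u j)) = ((M : ℂ) ^ 2)⁻¹ * ∑ l ∈ range M, ∑ l' ∈ range M,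
          (p.eval (E (u j + r / M * ((l : ℝ) - l'))) *
            E (-(2 * π * j / r) * (r / M * ((l : ℝ) - l'))) - p.eval (E (u j))) := by
        have hM'' : (M : ℂ) ≠ 0 := by exact_mod_cast hM.ne'
        simp only [hT, sum_sub_distrib, sum_const, card_range, nsmul_eq_mul, mul_sub]
        congr 1
        field_simp
      rw [this, norm_mul, norm_inv, norm_pow, norm_natCast, inv_mul_le_iff₀ (by positivity)]
      refine (norm_sum_le _ _).trans ((sum_le_card_nsmul _ _ (M * a) fun l hl => ?_).trans ?_)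
      · refine (norm_sum_le _ _).trans ((sum_le_card_nsmul _ _ a fun l' hl' => hs _ ?_).trans ?_)
        · have a1 : (l : ℝ) < M := by exact_mod_cast mem_range.1 hl
          have a2 : (l' : ℝ) < M := by exact_mod_cast mem_range.1 hl'
          have a3 : |(l : ℝ) - l'| ≤ M := by
            rw [abs_le]
            constructor <;> linarith [Nat.cast_nonneg (α := ℝ) l, Nat.cast_nonneg (α := ℝ) l']
          rw [abs_mul, abs_of_pos (by positivity), div_mul_eq_mul_div, div_le_iff₀ hMp]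
          gcongr
        · simp
      · simp [sq, mul_assoc]
    have e3 : b ≤ ‖T‖ := by
      have := norm_sub_norm_le (p.eval (E (u j))) T
      rw [norm_sub_rev] at this
      linarith
    refine e3.trans ?_
    rw [e1]
    refine (norm_sum_le _ _).trans (le_of_eq (sum_congr rfl fun k _ => ?_))
    rw [norm_mul, norm_mul, norm_E, mul_one]
  calc J.card * b ≤ ∑ j ∈ J, ∑ k ∈ p.support, ‖p.coeff k‖ * ‖Fe M (k * (r / M) - 2 * π * j / M)‖ := by
        rw [← nsmul_eq_mul]
        exact card_nsmul_le_sum _ _ _ key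
    _ ≤ ∑ j ∈ range M, ∑ k ∈ p.support, ‖p.coeff k‖ * ‖Fe M (k * (r / M) - 2 * π * j / M)‖ :=
        sum_le_sum_of_subset_of_nonneg hJ fun _ _ _ => by positivity
    _ = _ := by
        rw [sum_comm]
        refine sum_congr rfl fun k _ => ?_
        rw [← mul_sum, Fe_sum hM, mul_one]

end Pool.Agent.H.MP_fc26cf_an
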