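import Pool.Agent.H.MP_fc26cf_an.A

open Complex Finset
open scoped ComplexConjugate Real

namespace Pool.Agent.H.MP_fc26cf_an

/-- the symbol -/
noncomputable def ph (z : ℂ) : ℂ := z ^ 2 + I / 8 * z * (1 - z) ^ 2 - 1 / 16 * (1 - z) ^ 4

/-- the symbol divided by the square, as function of `t = 1 - cos u` -/
noncomputable def G (t : ℝ) : ℂ := 1 - I / 4 * t - (t : ℂ) ^ 2 / 4

lemma sq_circ {z : ℂ} (hz : ‖z‖ = 1) : (1 - z) ^ 2 = -2 * ((1 - z.re : ℝ) : ℂ) * z := by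
  have h1 : z * conj z = 1 := by rw [mul_conj, normSq_eq_norm_sq, hz]; simp
  have h2 := add_conj z
  push_cast at h2 ⊢
  linear_combination z * h2 - h1

lemma ph_circ {z : ℂ} (hz : ‖z‖ = 1) : ph z = z ^ 2 * G (1 - z.re) := by
  have h := sq_circ hz
  have h4 : (1 - z) ^ 4 = ((1 - z) ^ 2) ^ 2 := by ring
  rw [ph, G, h4, h]
  ring

lemma norm_G {t : ℝ} (h0 : 0 ≤ t) (h2 : t ≤ 2) : ‖G t‖ ≤ 1 - 3 / 32 * t ^ 2 := by
  have h4 : t ^ 2 ≤ 4 := by nlinarith
  refine abs_le_of_sq_le_sq' ?_ (by linarith) |>.2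
  have e : G t = ⟨1 - t ^ 2 / 4, -(t / 4)⟩ := by
    apply Complex.ext
    · simp [G, ← ofReal_pow]
    · simp [G, ← ofReal_pow]
      ring
  rw [Complex.sq_norm, e, normSq_mk]
  nlinarith [sq_nonneg (t ^ 2), mul_nonneg (sq_nonneg t) (sub_nonneg.2 h4)]

lemma ph_bound {z : ℂ} (hz : ‖z‖ ≤ 1) : ‖ph z‖ + 3 / 128 * ‖1 - z‖ ^ 4 ≤ 1 := by
  obtain ⟨c, hc1, hc⟩ := Complex.exists_norm_eq_mul_self (ph z)
  obtain ⟨d, hd1, hd⟩ := Complex.exists_norm_eq_mul_self ((1 - z) ^ 4)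
  have := Complex.norm_le_of_forall_mem_frontier_norm_le (U := Metric.ball 0 1)
    (f := fun w => c * ph w + 3 / 128 * (d * (1 - w) ^ 4)) Metric.isBounded_ball
    (Differentiable.diffContOnCl (by unfold ph; fun_prop)) (C := 1) (fun w hw => ?_) (z := z)
    (by rw [closure_ball _ one_ne_zero]; simpa using hz)
  · rw [← hc, ← hd, norm_pow] at this
    have e : ((‖ph z‖ : ℝ) : ℂ) + 3 / 128 * ((‖1 - z‖ ^ 4 : ℝ) : ℂ) =
        ((‖ph z‖ + 3 / 128 * ‖1 - z‖ ^ 4 : ℝ) : ℂ) := by push_cast; ring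
    rw [e, norm_real] at this
    exact (le_abs_self _).trans this
  · rw [frontier_ball _ one_ne_zero, mem_sphere_zero_iff_norm] at hw
    have a1 := abs_le.1 ((abs_re_le_norm w).trans hw.le)
    refine (norm_add_le _ _).trans ?_
    have h4 : (1 - w) ^ 4 = ((1 - w) ^ 2) ^ 2 := by ring
    rw [norm_mul, norm_mul, norm_mul, hc1, hd1, ph_circ hw, h4, sq_circ hw, norm_mul, norm_pow,
      norm_pow, norm_mul, norm_mul, hw, norm_real, mul_pow, mul_pow, Real.norm_eq_abs, sq_abs]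
    have := norm_G (t := 1 - w.re) (by linarith) (by linarith)
    have e1 : ‖(3 / 128 : ℂ)‖ = 3 / 128 := by simp
    have e2 : ‖(-2 : ℂ)‖ = 2 := by simp
    rw [e1, e2]
    linarith

lemma pow_sub_le {a b : ℂ} {R : ℝ} (ha : ‖a‖ ≤ R) (hb : ‖b‖ ≤ R) (n : ℕ) :
    ‖a ^ (n + 1) - b ^ (n + 1)‖ ≤ (n + 1) * R ^ n * ‖a - b‖ := by
  have hR : 0 ≤ R := (norm_nonneg _).trans ha
  induction n with
  | zero => simp
  | succ n ih =>
    have e : a ^ (n + 1 + 1) - b ^ (n + 1 + 1) = a * (a ^ (n + 1) - b ^ (n + 1)) + b ^ (n + 1) * (a - b) := by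
      ring
    rw [e]
    refine (norm_add_le _ _).trans ?_
    rw [norm_mul, norm_mul, norm_pow]
    calc _ ≤ R * ((n + 1) * R ^ n * ‖a - b‖) + R ^ (n + 1) * ‖a - b‖ := by gcongr
      _ = _ := by push_cast; ring

lemma re_E (u : ℝ) : (E u).re = Real.cos u := exp_ofReal_mul_I_re u

lemma norm_E_sub (a b : ℝ) : ‖E a - E b‖ ≤ |a - b| := by
  have : E a - E b = E b * (E (a - b) - 1) := by rw [mul_sub, ← E_add]; simp
  rw [this, norm_mul, norm_E, one_mul, E, mul_comm]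
  exact Real.norm_exp_I_mul_ofReal_sub_one_le

lemma G_loc {ε u r : ℝ} (hε : 0 < ε) (hε1 : ε ≤ 1 / 2) (hu0 : ε / 2 ≤ u) (hu : u ≤ ε)
    (hr : r ≤ ε / 4) {s : ℝ} (hs : |s| ≤ r) :
    ‖G (1 - Real.cos (u + s)) * E (u / 4 * s) - G (1 - Real.cos u)‖ ≤ (r / 4 + 3 * ε ^ 3) * r := by
  have hr0 : 0 ≤ r := (abs_nonneg _).trans hs
  let g : ℝ → ℂ := fun s => G (1 - Real.cos (u + s)) * E (u / 4 * s)
  let g' : ℝ → ℂ := fun s => ((-I / 4 - (1 - Real.cos (u + s) : ℝ) / 2) * (Real.sin (u + s) : ℝ) +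
    I * (u / 4 : ℝ) * G (1 - Real.cos (u + s))) * E (u / 4 * s)
  have hd : ∀ s, HasDerivAt g (g' s) s := by
    intro s
    have h1 : HasDerivAt (fun s : ℝ => 1 - Real.cos (u + s)) (Real.sin (u + s)) s := by
      simpa using ((Real.hasDerivAt_cos (u + s)).comp s ((hasDerivAt_id s).const_add u)).const_sub 1
    have h2 := h1.ofReal_comp
    have h3 : HasDerivAt (fun s : ℝ => ((u / 4 * s : ℝ) : ℂ) * I) (((u / 4 : ℝ) : ℂ) * I) s := by
      simpa using (((hasDerivAt_id s).const_mul (u / 4)).ofReal_comp).mul_const I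
    have h4 := (((h2.const_mul (I / 4)).const_sub 1).sub ((h2.pow 2).div_const 4)).mul h3.cexp
    refine h4.congr_deriv ?_
    simp only [g', G, E, Pi.sub_apply, Pi.pow_apply]
    push_cast
    ring
  have hb : ∀ s ∈ Set.Icc (-r) r, ‖g' s‖ ≤ r / 4 + 3 * ε ^ 3 := by
    intro s hs
    set v := u + s with hv
    have hv0 : 0 < v := by linarith [hs.1]
    have hv1 : v ≤ 5 / 4 * ε := by linarith [hs.2]
    set t := 1 - Real.cos v with ht
    have ht0 : 0 ≤ t := by linarith [Real.cos_le_one v]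
    have ht1 : t ≤ v ^ 2 / 2 := by linarith [Real.one_sub_sq_div_two_le_cos (x := v)]
    have hs1 := Real.sin_le hv0.le
    have hs2 := Real.sin_gt_sub_cube hv0
    have hv2 : v ^ 2 ≤ 25 / 16 * ε ^ 2 := by nlinarith
    have hv3 : v ^ 3 ≤ 2 * ε ^ 3 := by
      have := pow_le_pow_left₀ hv0.le hv1 3
      nlinarith [pow_pos hε 3]
    have hε2 : ε ^ 2 ≤ 1 / 4 := by nlinarith
    have hsin : 0 ≤ Real.sin v := by nlinarith
    have e : (-I / 4 - (t : ℝ) / 2) * (Real.sin v : ℝ) + I * (u / 4 : ℝ) * G t =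
        ((-(t / 2 * Real.sin v) + u * t / 16 : ℝ) : ℂ) +
        (((u - Real.sin v) / 4 - u * t ^ 2 / 16 : ℝ) : ℂ) * I := by
      simp only [G]
      push_cast
      linear_combination (-(u : ℂ) * t / 16) * I_mul_I
    simp only [g']
    rw [norm_mul, norm_E, mul_one, ← hv, ← ht, e]
    refine (norm_add_le _ _).trans ?_
    rw [norm_mul, norm_I, mul_one, norm_real, norm_real, Real.norm_eq_abs, Real.norm_eq_abs]
    have b1 : t * Real.sin v ≤ ε ^ 3 := by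
      calc t * Real.sin v ≤ v ^ 2 / 2 * v := by gcongr
        _ ≤ ε ^ 3 := by nlinarith
    have b2 : u * t ≤ ε ^ 3 := by
      calc u * t ≤ ε * (v ^ 2 / 2) := by gcongr
        _ ≤ ε ^ 3 := by nlinarith
    have b3 : 0 ≤ u * t := mul_nonneg (by linarith) ht0
    have b4 : 0 ≤ t * Real.sin v := mul_nonneg ht0 hsin
    have b5 : u * t ^ 2 ≤ ε ^ 3 := by
      have : t ≤ 1 := by linarith
      nlinarith
    have b6 : 0 ≤ u * t ^ 2 := mul_nonneg (by linarith) (sq_nonneg _)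
    have c1 : |-(t / 2 * Real.sin v) + u * t / 16| ≤ ε ^ 3 := by
      rw [abs_le]; constructor <;> linarith
    have c2 : |(u - Real.sin v) / 4 - u * t ^ 2 / 16| ≤ r / 4 + ε ^ 3 := by
      rw [abs_le]; constructor <;> linarith [hs.1, hs.2]
    linarith [pow_pos hε 3]
  have := (convex_Icc (-r) r).norm_image_sub_le_of_norm_hasDerivWithin_le
    (fun s _ => (hd s).hasDerivWithinAt) hb (x := 0) (y := s) ⟨by linarith, hr0⟩ (abs_le.1 hs)
  simp only [g, add_zero, mul_zero, E_zero, mul_one, sub_zero, Real.norm_eq_abs] at this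
  refine this.trans ?_
  gcongr

/-- the coefficient polynomials -/
noncomputable def P (n : ℕ) : Polynomial ℂ :=
  (1 - Polynomial.X) ^ 5 * (Polynomial.X ^ 2 + Polynomial.C (I / 8) * Polynomial.X *
    (1 - Polynomial.X) ^ 2 - Polynomial.C (1 / 16) * (1 - Polynomial.X) ^ 4) ^ n

lemma P_eval (n : ℕ) (z : ℂ) : (P n).eval z = (1 - z) ^ 5 * ph z ^ n := by
  simp [P, ph]

lemma P_loc {ε u : ℝ} {n : ℕ} (hε : 0 < ε) (hε1 : ε ≤ 1 / 10 ^ 6) (hn : n * ε ^ 4 = 1)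
    (hu0 : ε / 2 ≤ u) (hu : u ≤ ε) :
    ∃ a : ℝ, (ε / 4) ^ 5 / 2 + a ≤ ‖(P n).eval (E u)‖ ∧ ∀ s, |s| ≤ ε ^ 2 →
      ‖(P n).eval (E (u + s)) * E (-(n * (2 - u / 4)) * s) - (P n).eval (E u)‖ ≤ a := by
  obtain ⟨m, rfl⟩ : ∃ m, n = m + 1 := by
    rcases n with _ | m
    · simp at hn
    · exact ⟨m, rfl⟩
  set A := ‖(1 - E u) ^ 5‖ with hA
  have hu1 : 0 < u := by linarith
  have hA1 : (ε / 4) ^ 5 ≤ A := by
    rw [hA, norm_pow]
    refine pow_le_pow_left₀ (by positivity) ?_ 5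
    have h1 := abs_im_le_norm (1 - E u)
    have h2 : (1 - E u).im = -Real.sin u := by simp [E, exp_ofReal_mul_I_im]
    rw [h2, abs_neg] at h1
    have h3 := Real.sin_gt_sub_cube hu1
    have h4 : u ^ 3 ≤ u := by nlinarith [mul_pos hu1 hu1]
    linarith [le_abs_self (Real.sin u)]
  have hG : ∀ v : ℝ, ‖G (1 - Real.cos v)‖ ≤ 1 := fun v => by
    have := norm_G (t := 1 - Real.cos v) (by linarith [Real.cos_le_one v])
      (by linarith [Real.neg_one_le_cos v])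
    nlinarith [sq_nonneg (1 - Real.cos v)]
  have hph : ∀ v : ℝ, ph (E v) = E (2 * v) * G (1 - Real.cos v) := fun v => by
    rw [ph_circ (norm_E v), E_pow, re_E]
    norm_num
  refine ⟨80 * ε ^ 6 + A * (1 / 4 + 3 * ε), ?_, fun s hs => ?_⟩
  · rw [P_eval, norm_mul, ← hA, norm_pow, hph, norm_mul, norm_E, one_mul]
    have t0 : 0 ≤ 1 - Real.cos u := by linarith [Real.cos_le_one u]
    have t1 : 1 - Real.cos u ≤ ε ^ 2 / 2 := by
      have := Real.one_sub_sq_div_two_le_cos (x := u)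
      nlinarith
    have h1 : 1 + -(ε ^ 4 / 16) ≤ ‖G (1 - Real.cos u)‖ := by
      refine le_trans ?_ (re_le_norm _)
      have : (G (1 - Real.cos u)).re = 1 - (1 - Real.cos u) ^ 2 / 4 := by
        generalize 1 - Real.cos u = t
        simp [G, ← ofReal_pow]
      rw [this]
      nlinarith
    have h4 : ε ^ 4 ≤ 1 := pow_le_one₀ hε.le (by linarith)
    have h2 := (one_add_mul_le_pow (a := -(ε ^ 4 / 16)) (by linarith) (m + 1)).trans
      (pow_le_pow_left₀ (by linarith) h1 (m + 1))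
    have h3 : (1 : ℝ) + ((m + 1 : ℕ) : ℝ) * -(ε ^ 4 / 16) = 15 / 16 := by linarith
    rw [h3] at h2
    have h5 : 80 * ε ^ 6 ≤ (ε / 4) ^ 5 / 10 := by nlinarith [pow_pos hε 5]
    have h6 : A * (15 / 16) ≤ A * ‖G (1 - Real.cos u)‖ ^ (m + 1) := by gcongr
    nlinarith [pow_pos hε 5]
  · have hs' : |s| ≤ ε := hs.trans (by nlinarith)
    set g := G (1 - Real.cos (u + s)) * E (u / 4 * s) with hg
    have e : (P (m + 1)).eval (E (u + s)) * E (-((m + 1 : ℕ) * (2 - u / 4)) * s) -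
        (P (m + 1)).eval (E u) = E (2 * u) ^ (m + 1) * (((1 - E (u + s)) ^ 5 - (1 - E u) ^ 5) *
          g ^ (m + 1) + (1 - E u) ^ 5 * (g ^ (m + 1) - G (1 - Real.cos u) ^ (m + 1))) := by
      have e1 : E (2 * (u + s)) ^ (m + 1) * E (-((m + 1 : ℕ) * (2 - u / 4)) * s) =
          E (2 * u) ^ (m + 1) * E (u / 4 * s) ^ (m + 1) := by
        rw [E_pow, E_pow, E_pow, ← E_add, ← E_add]
        congr 1
        ring
      rw [P_eval, P_eval, hph, hph, hg, mul_pow, mul_pow, mul_pow]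
      linear_combination ((1 - E (u + s)) ^ 5 * G (1 - Real.cos (u + s)) ^ (m + 1)) * e1
    have hg1 : ‖g‖ ≤ 1 := by rw [hg, norm_mul, norm_E, mul_one]; exact hG _
    rw [e, norm_mul, norm_pow, norm_E, one_pow, one_mul]
    refine (norm_add_le _ _).trans (add_le_add ?_ ?_)
    · rw [norm_mul, norm_pow]
      refine (mul_le_of_le_one_right (norm_nonneg _) (pow_le_one₀ (norm_nonneg _) hg1)).trans ?_
      have b : ∀ v : ℝ, |v| ≤ 2 * ε → ‖1 - E v‖ ≤ 2 * ε := fun v hv => by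
        have := norm_E_sub 0 v
        rw [E_zero, zero_sub, abs_neg] at this
        linarith
      have b1 := b (u + s) ((abs_add_le _ _).trans (by rw [abs_of_pos hu1]; linarith))
      have b2 := b u (by rw [abs_of_pos hu1]; linarith)
      refine (pow_sub_le b1 b2 4).trans ?_
      have b3 : ‖1 - E (u + s) - (1 - E u)‖ ≤ ε ^ 2 := by
        have := norm_E_sub u (u + s)
        rw [sub_add_cancel_left, abs_neg] at this
        rw [sub_sub_sub_cancel_left]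
        linarith
      calc _ ≤ ((4 : ℕ) + 1) * (2 * ε) ^ 4 * ε ^ 2 := by gcongr
        _ = _ := by push_cast; ring
    · rw [norm_mul, ← hA]
      refine mul_le_mul_of_nonneg_left ((pow_sub_le hg1 (hG u) m).trans ?_) (norm_nonneg _)
      have := G_loc hε (by linarith) hu0 hu (r := ε ^ 2) (by nlinarith) hs
      push_cast at hn
      calc _ ≤ (m + 1) * 1 ^ m * ((ε ^ 2 / 4 + 3 * ε ^ 3) * ε ^ 2) := by gcongr
        _ = (m + 1) * ε ^ 4 * (1 / 4 + 3 * ε) := by ring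
        _ = _ := by rw [hn, one_mul]

lemma P_lower {ε : ℝ} {n : ℕ} (hε : 0 < ε) (hε1 : ε ≤ 1 / 10 ^ 6) (hn : n * ε ^ 4 = 1) :
    1 / 10 ^ 6 * ε ^ 4 ≤ ∑ k ∈ (P n).support, ‖(P n).coeff k‖ := by
  have hπ := Real.pi_pos
  have hπ4 := Real.pi_le_four
  have hn0 : (0 : ℝ) < n := by
    by_contra h
    have : (n : ℝ) = 0 := le_antisymm (not_lt.1 h) (Nat.cast_nonneg n)
    rw [this] at hn
    simp at hn
  set x := n * (2 - ε / 4) * ε ^ 2 / (2 * π) with hx
  have hx0 : 0 ≤ x := by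
    have : 0 ≤ 2 - ε / 4 := by linarith
    positivity
  set N := ⌊1 / (16 * π * ε)⌋₊ with hN
  have h := lower (P n) (M := ⌈x⌉₊ + N + 1) (by omega) (r := ε ^ 2) (by positivity)
    (Ico ⌈x⌉₊ (⌈x⌉₊ + N)) (fun j hj => by rw [mem_Ico] at hj; rw [mem_range]; omega)
    (fun j => 4 * (2 - 2 * π * j / ε ^ 2 / n)) (b := (ε / 4) ^ 5 / 2) fun j hj => ?_
  · refine le_trans ?_ h
    rw [Nat.card_Ico, Nat.add_sub_cancel_left]
    have h1 : 1 / (16 * π * ε) < N + 1 := Nat.lt_floor_add_one _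
    have h2 : 1 / (64 * ε) ≤ 1 / (16 * π * ε) := by
      apply one_div_le_one_div_of_le (by positivity)
      nlinarith
    have h3 : 1 / 128 ≤ N * ε := by
      have : 1 / (64 * ε) * ε = 1 / 64 := by field_simp
      nlinarith
    have : (N : ℝ) * ((ε / 4) ^ 5 / 2) = N * ε * (ε ^ 4 / 2048) := by ring
    rw [this]
    nlinarith [pow_pos hε 4]
  · rw [mem_Ico] at hj
    have j1 : x ≤ j := (Nat.le_ceil x).trans (by exact_mod_cast hj.1)
    have j2 : (j : ℝ) ≤ x + 1 / (16 * π * ε) := by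
      have a1 : (j : ℝ) + 1 ≤ ⌈x⌉₊ + N := by exact_mod_cast hj.2
      have a2 := Nat.ceil_lt_add_one hx0
      have a3 : (N : ℝ) ≤ 1 / (16 * π * ε) := Nat.floor_le (by positivity)
      linarith
    have e1 : 2 * π * x / ε ^ 2 / n = 2 - ε / 4 := by rw [hx]; field_simp
    have e2 : 2 * π * (x + 1 / (16 * π * ε)) / ε ^ 2 / n = 2 - ε / 8 := by
      have : 2 * π * (1 / (16 * π * ε)) / ε ^ 2 / n = ε / 8 := by
        field_simp
        linarith
      rw [mul_add, add_div, add_div, e1, this]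
      ring
    have k1 : 2 - ε / 4 ≤ 2 * π * j / ε ^ 2 / n := by rw [← e1]; gcongr
    have k2 : 2 * π * j / ε ^ 2 / n ≤ 2 - ε / 8 := by rw [← e2]; gcongr
    obtain ⟨a, h1, h2⟩ := P_loc (u := 4 * (2 - 2 * π * j / ε ^ 2 / n)) hε hε1 hn
      (by linarith) (by linarith)
    refine ⟨a, h1, fun s hs => ?_⟩
    convert h2 s hs using 5
    field_simp
    ring

end Pool.Agent.H.MP_fc26cf_an
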