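import Pool.Agent.H.MP_fc26cf_an.B

open Complex Finset Filter Topology
open scoped ComplexConjugate Real

namespace Pool.Agent.H.MP_fc26cf_an

/-- numerator -/
noncomputable def PA : MvPolynomial (Fin 2) ℂ := (1 - MvPolynomial.X 0) ^ 5

/-- denominator -/
noncomputable def PB : MvPolynomial (Fin 2) ℂ :=
  1 - MvPolynomial.X 1 * (MvPolynomial.X 0 ^ 2 + MvPolynomial.C (I / 8) * MvPolynomial.X 0 *
    (1 - MvPolynomial.X 0) ^ 2 - MvPolynomial.C (1 / 16) * (1 - MvPolynomial.X 0) ^ 4)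

lemma PA_eval (z : Fin 2 → ℂ) : MvPolynomial.eval z PA = (1 - z 0) ^ 5 := by simp [PA]

lemma PB_eval (z : Fin 2 → ℂ) : MvPolynomial.eval z PB = 1 - z 1 * ph (z 0) := by simp [PB, ph]

lemma relPrime : IsRelPrime PA PB := by
  let σ : MvPolynomial (Fin 2) ℂ →ₐ[ℂ] MvPolynomial (Fin 2) ℂ :=
    MvPolynomial.aeval ![1 - MvPolynomial.X 0, MvPolynomial.X 1]
  have hσ : σ.comp σ = AlgHom.id ℂ _ := by
    ext i : 1
    fin_cases i <;> simp [σ]
  let e := AlgEquiv.ofAlgHom σ σ hσ hσ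
  have hp : Prime (1 - MvPolynomial.X 0 : MvPolynomial (Fin 2) ℂ) := by
    have := (MulEquiv.prime_iff e (p := MvPolynomial.X 0)).2 MvPolynomial.X_prime
    simpa [e, σ] using this
  refine IsRelPrime.pow_left (hp.irreducible.isRelPrime_iff_not_dvd.2 ?_)
  rintro ⟨q, hq⟩
  have := congrArg (MvPolynomial.eval ![1, 0]) hq
  rw [PB_eval] at this
  simp at this

lemma den_bound {z w : ℂ} (hz : ‖z‖ ≤ 1) (hw : ‖w‖ ≤ 1) :
    3 / 128 * ‖1 - z‖ ^ 4 ≤ ‖1 - w * ph z‖ := by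
  have h1 := ph_bound hz
  have h2 := norm_sub_norm_le (1 : ℂ) (w * ph z)
  rw [norm_one, norm_mul] at h2
  have h3 : ‖w‖ * ‖ph z‖ ≤ ‖ph z‖ := mul_le_of_le_one_left (norm_nonneg _) hw
  linarith

lemma ph_le {z : ℂ} (hz : ‖z‖ ≤ 1) : ‖ph z‖ ≤ 1 := by
  have := ph_bound hz
  have : 0 ≤ ‖1 - z‖ ^ 4 := by positivity
  linarith

lemma zeros (z : Fin 2 → ℂ) (hz : ∀ i, ‖z i‖ ≤ 1) (h : MvPolynomial.eval z PB = 0) :
    (∀ i, ‖z i‖ = 1) ∧ MvPolynomial.eval z PA = 0 := by
  rw [PB_eval] at h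
  have h1 := den_bound (hz 0) (hz 1)
  rw [h, norm_zero] at h1
  have h2 : ‖1 - z 0‖ ^ 4 = 0 := le_antisymm (by linarith) (by positivity)
  have h3 : z 0 = 1 := (sub_eq_zero.1 (norm_eq_zero.1 (pow_eq_zero_iff (by norm_num) |>.1 h2))).symm
  have h4 : z 1 = 1 := by
    rw [h3] at h
    simp only [ph, one_pow, sub_self] at h
    linear_combination -h
  refine ⟨fun i => ?_, by simp [PA_eval, h3]⟩
  fin_cases i
  · simp [h3]
  · simp [h4]

lemma coeff_le (n k : ℕ) : ‖(P n).coeff k‖ ≤ 32 := by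
  by_cases hk : k ∈ (P n).support
  swap
  · rw [Polynomial.notMem_support_iff.1 hk]
    simp
  have h1 := single_le_sum (f := fun i => ‖(P n).coeff i‖ ^ 2) (fun i _ => by positivity) hk
  rw [Polynomial.sum_sq_norm_coeff_eq_circleAverage] at h1
  have h2 := Real.circleAverage_mono_on_of_le_circle (c := 0) (R := 1)
    (f := fun θ => ‖(P n).eval θ‖ ^ 2) (a := 32 ^ 2)
    (Continuous.continuousOn (by fun_prop)).circleIntegrable' fun x hx => ?_
  · exact (abs_le_of_sq_le_sq' (h1.trans h2) (by norm_num)).2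
  · have hx1 : ‖x‖ = 1 := by simpa using hx
    refine pow_le_pow_left₀ (norm_nonneg _) ?_ 2
    rw [P_eval, norm_mul, norm_pow, norm_pow]
    have a1 : ‖1 - x‖ ≤ 2 := by
      have := norm_sub_le (1 : ℂ) x
      rw [norm_one, hx1] at this
      linarith
    have a2 := ph_le hx1.le
    calc ‖1 - x‖ ^ 5 * ‖ph x‖ ^ n ≤ 2 ^ 5 * 1 ^ n := by gcongr
      _ = 32 := by norm_num

lemma hasSum (z : Fin 2 → ℂ) (hz : ∀ i, ‖z i‖ < 1) :
    HasSum (fun p : ℕ × ℕ => (P p.2).coeff p.1 * z 0 ^ p.1 * z 1 ^ p.2)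
      (MvPolynomial.eval z PA / MvPolynomial.eval z PB) := by
  rw [← (Equiv.prodComm ℕ ℕ).hasSum_iff]
  have hs : Summable fun p : ℕ × ℕ => (P p.1).coeff p.2 * z 0 ^ p.2 * z 1 ^ p.1 := by
    have h1 := (summable_geometric_of_lt_one (norm_nonneg _) (hz 1)).mul_of_nonneg
      (summable_geometric_of_lt_one (norm_nonneg _) (hz 0)) (fun _ => by positivity)
      (fun _ => by positivity)
    refine Summable.of_norm_bounded (h1.mul_left 32) fun p => ?_
    rw [norm_mul, norm_mul, norm_pow, norm_pow, mul_comm (‖z 1‖ ^ _), mul_assoc]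
    gcongr
    exact coeff_le _ _
  have h2 : ∀ n, HasSum (fun k => (P n).coeff k * z 0 ^ k * z 1 ^ n)
      ((1 - z 0) ^ 5 * (z 1 * ph (z 0)) ^ n) := by
    intro n
    have := (hasSum_sum_of_ne_finset_zero (s := (P n).support)
      (f := fun k => (P n).coeff k * z 0 ^ k) (L := SummationFilter.unconditional ℕ) fun k hk => by
        rw [Polynomial.notMem_support_iff.1 hk, zero_mul]).mul_right (z 1 ^ n)
    have e := Polynomial.eval_eq_sum (p := P n) (x := z 0)
    rw [Polynomial.sum] at e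
    rw [← e, P_eval, mul_assoc, ← mul_pow, mul_comm (ph _)] at this
    exact this
  have h3 := hs.hasSum.prod_fiberwise h2
  have h4 : ‖z 1 * ph (z 0)‖ < 1 := by
    rw [norm_mul]
    exact (mul_le_of_le_one_right (norm_nonneg _) (ph_le (hz 0).le)).trans_lt (hz 1)
  have h5 := (hasSum_geometric_of_norm_lt_one h4).mul_left ((1 - z 0) ^ 5)
  have := hs.hasSum
  rw [h3.unique h5] at this
  rw [PA_eval, PB_eval, div_eq_mul_inv]
  exact this

lemma cont : ContinuousOn (fun z : Fin 2 → ℂ => (1 - z 0) ^ 5 / (1 - z 1 * ph (z 0)))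
    {z : Fin 2 → ℂ | ∀ i, ‖z i‖ ≤ 1} := by
  intro z hz
  by_cases h : z 0 = 1
  · rw [ContinuousWithinAt, h, sub_self, zero_pow (by norm_num), zero_div]
    refine squeeze_zero_norm' (a := fun w : Fin 2 → ℂ => 128 / 3 * ‖1 - w 0‖) ?_ ?_
    · filter_upwards [self_mem_nhdsWithin] with w hw
      rcases (norm_nonneg (1 - w 0)).eq_or_lt with h0 | h0
      · rw [norm_div, norm_pow, ← h0]
        simp
      · have h1 := den_bound (hw 0) (hw 1)
        have h2 : 0 < ‖1 - w 1 * ph (w 0)‖ := lt_of_lt_of_le (by positivity) h1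
        rw [norm_div, norm_pow, div_le_iff₀ h2]
        calc ‖1 - w 0‖ ^ 5 = 128 / 3 * ‖1 - w 0‖ * (3 / 128 * ‖1 - w 0‖ ^ 4) := by ring
          _ ≤ _ := by gcongr
    · have := ((by fun_prop : Continuous fun w : Fin 2 → ℂ => 128 / 3 * ‖1 - w 0‖).tendsto z).mono_left
        (nhdsWithin_le_nhds (s := {z : Fin 2 → ℂ | ∀ i, ‖z i‖ ≤ 1}))
      simpa [h] using this
  · have c1 : Continuous fun z : Fin 2 → ℂ => (1 - z 0) ^ 5 := by fun_prop
    have c2 : Continuous fun z : Fin 2 → ℂ => 1 - z 1 * ph (z 0) := by unfold ph; fun_prop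
    refine ContinuousAt.continuousWithinAt (ContinuousAt.div c1.continuousAt c2.continuousAt ?_)
    have h0 : 0 < ‖1 - z 0‖ := norm_pos_iff.2 (sub_ne_zero.2 (Ne.symm h))
    exact norm_pos_iff.1 (lt_of_lt_of_le (by positivity) (den_bound (hz 0) (hz 1)))

lemma not_summable : ¬ Summable fun p : ℕ × ℕ => ‖(P p.2).coeff p.1‖ := by
  intro h
  have h1 : Summable fun n : ℕ => ∑' k, ‖(P n).coeff k‖ := h.prod_symm.prod
  refine Real.not_summable_one_div_natCast ?_
  refine Summable.of_norm_bounded_eventually_nat (h1.mul_left (10 ^ 6)) ?_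
  filter_upwards [eventually_ge_atTop (10 ^ 24)] with n hn
  have hn' : (10 : ℝ) ^ 24 ≤ n := by exact_mod_cast hn
  have hn0 : (0 : ℝ) < n := lt_of_lt_of_le (by positivity) hn'
  set ε := (√(√(n : ℝ)))⁻¹ with hε
  have hε0 : 0 < ε := by positivity
  have h4 : ε ^ 4 = (n : ℝ)⁻¹ := by
    rw [hε, inv_pow, show 4 = 2 * 2 from rfl, pow_mul, Real.sq_sqrt (Real.sqrt_nonneg _),
      Real.sq_sqrt hn0.le]
  have hε1 : ε ≤ 1 / 10 ^ 6 := by
    refine le_of_pow_le_pow_left₀ (n := 4) (by norm_num) (by positivity) ?_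
    rw [h4, inv_eq_one_div, div_pow, one_pow]
    exact one_div_le_one_div_of_le (by positivity) (by linarith)
  have := P_lower hε0 hε1 (n := n) (by rw [h4, mul_inv_cancel₀ hn0.ne'])
  rw [tsum_eq_sum (s := (P n).support) fun k hk => by
    rw [Polynomial.notMem_support_iff.1 hk, norm_zero], Real.norm_of_nonneg (by positivity),
    one_div, ← h4]
  linarith

end Pool.Agent.H.MP_fc26cf_an
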